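import Pool.Agent.Q267.AM.Few

/-!
# Character summands of cyclic covers of projective space: one-parameter families

Let `K` be a number field which contains the `m`-th roots of unity, let `P_1, …, P_(m - 1)` be forms
in `x_0, …, x_n` whose coefficients are polynomials in a parameter `t` over `𝓞 K`, and let

  `Y_t : y ^ m = ∏ P_c(t, x) ^ c`

be the corresponding family of cyclic covers `π : Y_t → P ^ n`. It is étale over the complement
`U_t` of the hypersurfaces `P_c = 0`, and `π_* Q_ℓ` is the sum of the Kummer sheaves of rank one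
`L_j`, `j` modulo `m`, attached to the forms `F_j = ∏ P_c ^ (j c mod m)` (`j` prime to `m`: the
primitive ones). The group ring of `μ_m` acts on the motive of `IH ^ n(P ^ n, π_* Q_ℓ)`, and its
idempotents cut out the summands `R_J = ⊕_(j ∈ ± J) IH ^ n(P ^ n, L_j)`. Let `F_j` have the degree
`m e_j`. The group `H ^ n(Y_t, O)` has the eigenspaces `H ^ n(P ^ n, O(-e_j))`, whose dimension is the
number `choose (e_j - 1) n` of the exponents `w` with `w_i ≥ 1` and `∑ w_i = e_j`; at a place `v` of
norm `q = 1` modulo `m` the Frobenius maps every eigenspace to itself, and its matrix, the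
Hasse-Witt matrix, consists of the coefficients of `x ^ (q w - w')` in `F_j ^ ((q - 1) / m)`.

**Theorem.** Let `J` be a set of residues such that for every `j` in `J` some member of the family
`F_j` over `P ^ 1(K)` (at a point `s_j` of `K` or at infinity) is `(ℓ_1 ⋯ ℓ_(e_j)) ^ m` for linear
forms `ℓ_i` over the algebraic closure, every `n + 1` of which are linearly independent. Let
`Δ ≠ 0` be any polynomial in `t` over `𝓞 K` (a discriminant of the family, for instance). Call `v`
good for `t` if `m` and `Δ(t)` are prime to `v` and the Hasse-Witt matrices of all `F_j`, `j ∈ J`,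
are invertible at `v`.

1. For every `ε > 0` and all but finitely many places `v` of prime norm, at most `ε N v` of the
   `N v` residue classes `t` are not good.
2. For `η > 0`, `0 < θ < 1` there is `A` such that for all integers `1 ≤ t ≤ X` but at most
   `A (X / Q₀ ^ (1 - θ) + Q₁ ^ (1 + θ))`, and for ALL `Q` with `Q₀ ≤ Q ≤ Q₁`, the good places are at
   least the proportion `1 - η` of ALL places `v` of `K` with `N v ≤ Q`.
3. For `η, δ > 0` there is `C` such that if `X ^ δ Q₀ ≤ Q₁`, then for all integers `1 ≤ t ≤ X` but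
   at most `C Q₁` the following holds: for at least the proportion `1 - η` of the scales `Q = 2 ^ j`
   between `Q₀` and `Q₁` the good places are at least the proportion `1 - η` of all places of norm at
   most `Q`. With `Q₀ = 1`, `Q₁ = X ^ δ`: all members but `O(X ^ δ)`.

**Newton and Hodge polygons.** By the theorem of Mazur for the eigenspaces of the crystalline
cohomology the Newton polygon of `IH ^ n(P ^ n, L_j)` lies above its Hodge polygon. The invertibility
of the Hasse-Witt matrix of `F_j` says that the part of slope `0` has the right dimension, and the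
invertibility for `-j` the same for the slope `n`, by Poincaré duality. So at a good place the two
polygons of `R_J` agree

* for `n = 1` and every `J` (the eigenspace of `j` has the Hodge numbers `e_j - 1` and
  `e_(-j) - 1`; if the first slopes are right, then all slopes are right, and the eigenspace of `-j`
  is dual to that of `j`);
* for `n = 2` if `J = -J`.

In general the first segment of the polygons of `j` and the last segment for `-j` agree.

**Examples.**

* All characters. Let `P_c` and `P_(m - c)` have the same value `Q_c` at `t = s_0` (if `m` is even,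
  `P_(m / 2)` the value `Q ^ 2`), the product of all `Q_c` and `Q` being a product of linear forms in
  general position. Then `F_j` has at `s_0` the value `∏ Q_c ^ m` (the product over the `c` with
  `m ∤ j c`, and `Q`), so `J = {1, …, m - 1}` is possible. This is the case of all
  curves `y ^ m = ∏ (x - a_i(t)) ^ (k_i) (x - b_i(t)) ^ (m - k_i)`, `a_i(s_0) = b_i(s_0)` different for
  different `i`, and of all cyclic covers of the plane branched over lines (or
  curves `P_c` of higher degree) which move in such a way.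
* `m = 3, 4, 6`, `n = 1`, `J = {1}`: every family `y ^ m = f_t(x)` which contains the `m`-th power of a
  squarefree polynomial, such as `y ^ m = h(x) ^ m + t g(x, t)`; here `R_J` is the whole new part of
  the `H ^ 1`, which for `m = 3` is `H ^ 1` itself.

The condition on `Δ` allows to treat families whose branch divisors are singular: `Δ` vanishes where
the singularities change.

## Proof

The soft Stepanov theorem and the method of `MP_17d720_ag.ArrangementPencils`, which is the case
`J = {1}`, `P_1 = f`, `m = 1` or `2`. For general `m` we use the power series `(1 + m ^ 2 y) ^ (-1 / m)`,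
which has integral coefficients (`Pool/Agent/Q267/AM/Root.lean`), and places `v` whose norm is a prime
number; since `K` contains the `m`-th roots of unity, `N v = 1` modulo `m` for almost all of them.
-/

set_option autoImplicit false

open Finset MvPolynomial NumberField IsDedekindDomain

namespace Pool.Agent.Results.MP_0dad22_ag.KummerSummands

/-- The linear form with the coefficients `l`. -/
noncomputable def linForm {R : Type} [CommRing R] {n : ℕ} (l : Fin (n + 1) → R) :
    MvPolynomial (Fin (n + 1)) R :=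
  ∑ j, C (l j) * X j

/-- Some member of the family `f` over `P^1(K)`, at a point `s₀` of `K` or at infinity (where the
member is the coefficient of `t ^ d`, `d` at least the degree in `t`), is the `m`-th power of the
product of the linear forms. -/
def HasArrangement {K : Type} [Field K] [NumberField K] {n e : ℕ} (m : ℕ)
    (f : MvPolynomial (Fin (n + 1)) (Polynomial (𝓞 K)))
    (l : Fin e → Fin (n + 1) → AlgebraicClosure K) : Prop :=
  (∃ s₀ : K, map ((algebraMap K (AlgebraicClosure K)).comp
    (Polynomial.eval₂RingHom (algebraMap (𝓞 K) K) s₀)) f = (∏ i, linForm (l i)) ^ m) ∨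
  ∃ d : ℕ, (∀ u, (coeff u f).natDegree ≤ d) ∧
    ∀ u, algebraMap K (AlgebraicClosure K) (algebraMap (𝓞 K) K ((coeff u f).coeff d)) =
      coeff u ((∏ i, linForm (l i)) ^ m)

/-- The form `F_j = ∏ P_c ^ (j c mod m)` of the `j`-th character of `y ^ m = ∏ P_c ^ c`. -/
noncomputable def charForm {R : Type} [CommRing R] {n : ℕ} (m : ℕ)
    (P : ℕ → MvPolynomial (Fin (n + 1)) R) (j : ℕ) : MvPolynomial (Fin (n + 1)) R :=
  ∏ c ∈ range m, P c ^ (j * c % m)

/-- The exponents `w` with `w i ≥ 1` and `∑ w i = e`. -/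
abbrev Exps (n e : ℕ) :=
  {w : (i : Fin (n + 1)) → Fin (e + 1) // (∀ i, 0 < (w i : ℕ)) ∧ ∑ i, (w i : ℕ) = e}

/-- The Hasse-Witt matrix of the form `f` of degree `m e` over a field with `q` elements: the entry
with indices `w`, `w'` is the coefficient of `x ^ (q w - w')` in `f ^ ((q - 1) / m)`, written as the
coefficient of `x ^ (q w)` in `x ^ w' f ^ ((q - 1) / m)`. -/
noncomputable def hasseWitt {R : Type} [CommRing R] {n : ℕ} (m e q : ℕ)
    (f : MvPolynomial (Fin (n + 1)) R) : Matrix (Exps n e) (Exps n e) R :=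
  Matrix.of fun w w' => coeff (Finsupp.equivFunOnFinite.symm fun i => q * (w.1 i : ℕ))
    (monomial (Finsupp.equivFunOnFinite.symm fun i => (w'.1 i : ℕ)) 1 * f ^ ((q - 1) / m))

/-- The member of a family at the integer `t`. -/
noncomputable def member {K : Type} [Field K] [NumberField K] {n : ℕ}
    (f : MvPolynomial (Fin (n + 1)) (Polynomial (𝓞 K))) (t : ℕ) : MvPolynomial (Fin (n + 1)) (𝓞 K) :=
  map (Polynomial.evalRingHom (t : 𝓞 K)) f

/-- The place `v` is good for `t`: `m` and `Δ(t)` are prime to `v`, and for all `j` in `J` the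
Hasse-Witt matrix of the `j`-th eigenspace of the cyclic cover `y ^ m = ∏ P_c(t, x) ^ c` at `v` is
invertible. -/
def Good {K : Type} [Field K] [NumberField K] {n : ℕ} (m : ℕ) (J : Finset ℕ) (e : ℕ → ℕ)
    (Δ : Polynomial (𝓞 K)) (P : ℕ → MvPolynomial (Fin (n + 1)) (Polynomial (𝓞 K))) (t : ℕ)
    (v : HeightOneSpectrum (𝓞 K)) : Prop :=
  (m : 𝓞 K) ∉ v.asIdeal ∧ Δ.eval (t : 𝓞 K) ∉ v.asIdeal ∧ ∀ j ∈ J,
    (hasseWitt m (e j) (Ideal.absNorm v.asIdeal)
      (map (algebraMap (𝓞 K) v.asIdeal.ResidueField) (member (charForm m P j) t))).det ≠ 0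

lemma hasseWitt_eq {R : Type} [CommRing R] {n : ℕ} (m e q : ℕ)
    (f : MvPolynomial (Fin (n + 1)) R) : hasseWitt m e q f =
      Pool.Agent.Q267.DC.hm ((q - 1) / m) q (Pool.Agent.Q267.AP.wexp n e) f := by
  ext w w'
  unfold hasseWitt Pool.Agent.Q267.DC.hm
  rw [Matrix.of_apply, Matrix.of_apply]
  congr 1
  ext i
  rw [Finsupp.smul_apply, smul_eq_mul]
  rfl

lemma good_eq {K : Type} [Field K] [NumberField K] {n : ℕ} (m : ℕ) (J : Finset ℕ) (e : ℕ → ℕ)
    (Δ : Polynomial (𝓞 K)) (P : ℕ → MvPolynomial (Fin (n + 1)) (Polynomial (𝓞 K))) (t : ℕ)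
    (v : HeightOneSpectrum (𝓞 K)) :
    Pool.Agent.Q267.AM.GoodJ m J e Δ (fun j => charForm m P j) t v = Good m J e Δ P t v := by
  unfold Pool.Agent.Q267.AM.GoodJ Good
  simp only [hasseWitt_eq]
  rfl

open Classical in
theorem result (K : Type) [Field K] [NumberField K] (m n : ℕ) (hm : 1 ≤ m)
    (ζ : K) (hζ : IsPrimitiveRoot ζ m)
    (P : ℕ → MvPolynomial (Fin (n + 1)) (Polynomial (𝓞 K))) (J : Finset ℕ) (e : ℕ → ℕ)
    (hP : ∀ j ∈ J, ∀ u ∈ (charForm m P j).support, ∑ i, u i = m * e j)
    (l : (j : ℕ) → Fin (e j) → Fin (n + 1) → AlgebraicClosure K)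
    (hl : ∀ j ∈ J, ∀ σ : Fin (n + 1) → Fin (e j), Function.Injective σ →
      (Matrix.of fun i i' => l j (σ i) i').det ≠ 0)
    (harr : ∀ j ∈ J, HasArrangement m (charForm m P j) (l j))
    (Δ : Polynomial (𝓞 K)) (hΔ : Δ ≠ 0) :
    (∀ ε : ℝ, 0 < ε → {v : HeightOneSpectrum (𝓞 K) | (Ideal.absNorm v.asIdeal).Prime ∧
      ε * Ideal.absNorm v.asIdeal < (((range (Ideal.absNorm v.asIdeal)).filter
        fun t : ℕ => ¬ Good m J e Δ P t v).card : ℝ)}.Finite) ∧
    (∀ η : ℝ, 0 < η → ∀ θ : ℝ, 0 < θ → θ < 1 → ∃ A : ℝ, ∀ X Q₀ Q₁ : ℕ, 1 ≤ Q₀ →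
      ({t : ℕ | (1 ≤ t ∧ t ≤ X) ∧ ∃ Q, Q₀ ≤ Q ∧ Q ≤ Q₁ ∧
        (Nat.card {v : HeightOneSpectrum (𝓞 K) // Ideal.absNorm v.asIdeal ≤ Q ∧
          Good m J e Δ P t v} : ℝ) <
        (1 - η) * Nat.card {v : HeightOneSpectrum (𝓞 K) //
          Ideal.absNorm v.asIdeal ≤ Q}}.ncard : ℝ) ≤
      A * (X * (Q₀ : ℝ) ^ (θ - 1) + (Q₁ : ℝ) ^ (1 + θ))) ∧
    (∀ η δ : ℝ, 0 < η → 0 < δ → ∃ C : ℝ, ∀ X Q₀ Q₁ : ℕ, 1 ≤ Q₀ → (X : ℝ) ^ δ * Q₀ ≤ Q₁ →
      ({t : ℕ | (1 ≤ t ∧ t ≤ X) ∧
        (Nat.card {j : ℕ // (Q₀ ≤ 2 ^ j ∧ 2 ^ j ≤ Q₁) ∧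
          (1 - η) * Nat.card {v : HeightOneSpectrum (𝓞 K) // Ideal.absNorm v.asIdeal ≤ 2 ^ j} ≤
          (Nat.card {v : HeightOneSpectrum (𝓞 K) // Ideal.absNorm v.asIdeal ≤ 2 ^ j ∧
            Good m J e Δ P t v} : ℝ)} : ℝ) <
        (1 - η) * Nat.card {j : ℕ // Q₀ ≤ 2 ^ j ∧ 2 ^ j ≤ Q₁}}.ncard : ℝ) ≤ C * Q₁) := by
  have hfew := fun ε hε => Pool.Agent.Q267.AM.fewJ (n := n) m hm ζ hζ J e
    (fun j => charForm m P j) hP l hl harr Δ hΔ ε hε
  have hmod := fun v hv t => Pool.Agent.Q267.AM.goodJ_mod (n := n) m J e Δ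
    (fun j => charForm m P j) v hv t
  have h2 := Pool.Agent.Q267.AM.allscales (K := K) _ hmod hfew
  have h3 := Pool.Agent.Q267.AM.mostscales (K := K) _ hmod hfew
  simp only [good_eq] at hfew h2 h3
  refine ⟨fun ε hε => ?_, fun η hη θ hθ0 hθ1 => ?_, fun η δ hη hδ => ?_⟩
  · refine (hfew ε hε).subset fun v hv => ⟨hv.1, fun h => ?_⟩
    exact absurd (lt_of_lt_of_le hv.2 (le_trans (le_of_eq (by rfl)) h)) (lt_irrefl _)
  · exact h2 η hη θ hθ0 hθ1
  · exact h3 η δ hη hδ

end Pool.Agent.Results.MP_0dad22_ag.KummerSummands
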