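import Pool.Agent.Q18.HJ.AndreDefs

/-!
# Ordinary primes for all André summands of sums of ternary cubics

Let `F` be a number field. We consider the smooth hypersurfaces, of ARBITRARY dimension,

  `W : f_1(x_1, y_1, z_1) + f_2(x_2, y_2, z_2) + ⋯ + f_r(x_r, y_r, z_r) = 0`,

`f_j` cubic forms in at most three variables, or `f_1(x_1, y_1) + ⋯ + f_r(x_r, y_r) = 0`, `f_j` binary
quartic forms; one more term `u_j^3`, respectively `u_j^4`, is allowed for every `j`. Let `M` be an
André motive over `F` which is, over the algebraic closure, generated by such `W` and by elliptic
curves; for example one which realises `H^k(X, j_{!*} R^i π_* ℚ_ℓ)` for a family `π : 𝒴 → U`, `U ⊂ X`,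
and is a summand of the motive of a smooth compactification of `𝒴` of this type. We prove that for
every idempotent `e` of `M` the motive `R = e M` has infinitely many ordinary primes.
-/

open CategoryTheory MonoidalCategory

universe v u w

namespace Pool.Agent.Results.MP_0dad22_ag.SummandsOfEllipticSums

open Pool.Agent.Q18.HJ

/-- **Ordinary primes for summands of elliptic sums.** Let `T` be the André motives over the number
field `F` and over its algebraic closure (`hT`: known facts). Let `M` be an André motive over `F` which
is, over the algebraic closure, of type `EllipticType` (obtained by tensor products, direct sums,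
direct summands and Tate twists from the motives of elliptic curves and of smooth hypersurfaces `W`,
of any dimensions, which are sums of cubic forms in at most three variables or of binary quartic
forms), and let `R` be a direct summand of `M` (in André motives, over `F` or only over the algebraic
closure). Then the maximal ideals `𝔭` of `F` with `Newton_τ(Frob_𝔭, R_ℓ) = HP(R_ℓ)` for all `ℓ` with
`𝔭 ∤ ℓ` and all `τ` have positive lower density, and density one over a finite extension of `F`. -/
theorem result {𝓜 : Type u} [Category.{v} 𝓜] [Preadditive 𝓜] [MonoidalCategory 𝓜]
    {T : AndreData.{v, u, w} 𝓜} (hT : T.Facts) (M R : T.MotF) (hM : T.EllipticType (T.bc M))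
    (hR : Nonempty (Retract (T.bc R) (T.bc M))) : T.OrdF R :=
  AndreData.final hT M R hM hR

end Pool.Agent.Results.MP_0dad22_ag.SummandsOfEllipticSums
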