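import Pool.Agent.Q267.MU.Few

/-!
# Superelliptic curves: one-parameter families with a totally degenerate fibre

Let `K` be a number field which contains the `m`-th roots of unity, `t` a parameter, and let `f_j`, `j` in
a finite set `J`, be polynomials in `x` of degree at most `m (g_j + 1)` whose coefficients are polynomials
in `t` over `𝓞 K`. The equations are those of the Kummer sheaves of rank one `L_j`, `y ^ m = f_j(t, x)`,
on the projective line; the space `H ^ 1(O)` of the eigenspace of `y` has the dimension `g_j` (if `f_j` has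
no roots of multiplicity `m` or more), and at a place of norm `q = 1` modulo `m` the Frobenius maps it to
itself, with the Hasse-Witt matrix of the coefficients of `x ^ (q (i + 1))` in
`x ^ (l + 1) f_j ^ ((q - 1) / m)`, `i, l < g_j`.

Let `s` be a point of `P ^ 1(K)`. The family `f` is called *totally degenerate* at `s` if over the field of
Puiseux series at `s` there are `g` discs, which are all different, such that for every one of them, `D`:

* there are no roots of `f`, and no centres of the discs, on the circle which bounds `D`;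
* the number of the roots of `f` in `D` is `m` times the number of the centres in `D`.

(`TotallyDegenerate`: the discs have the centres `b_j` and the radii `|S| ^ (r_j)`, where
`t = s + S ^ N`, and `S` is the parameter. In the coordinate `u`, `x = b_j + S ^ (r_j) u`, the polynomial `f`
is `S ^ d (κ u ^ (m w) + O(S))`, `w` the number of the centres in `D_j`, `κ ≠ 0`. `M` is such that
`S ^ M x` is used instead of `x`, so that the discs have integral centres.)

For `m = 2` these are the families of hyperelliptic curves `y ^ 2 = f(t, x)` whose fibre at `s` has totally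
degenerate reduction (Mumford curves over `K((t - s))`, possibly after a finite extension): then every
cluster of roots (a set of at least two roots which is the set of all roots in a disc) has at most two odd
children (maximal subclusters or single roots). By induction the number of the even clusters with two odd
children in a cluster `C` is `⌊|C| / 2⌋`. As centre of the disc of such a cluster we take a root in it which is in
none of the smaller ones of these clusters (it is a root such that all clusters which contain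
it and are in one of the odd children are odd). There are `g` of these discs, or `g + 1`, and then one
of the maximal ones is left out.

**Theorem.** Let `s_j ∈ P ^ 1(K)` be such that `f_j` is totally degenerate at `s_j`, for every `j ∈ J`. Let
`Δ ≠ 0` be any polynomial in `t` over `𝓞 K`. Call `v` good for `t` if `m` and `Δ(t)` are prime to `v` and the
Hasse-Witt matrices of all `f_j`, `j ∈ J`, are invertible at `v`.

1. For every `ε > 0` and all but finitely many places `v` of prime norm, at most `ε N v` of the
   `N v` residue classes `t` are not good.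
2. For `η > 0`, `0 < θ < 1` there is `A` such that for all integers `1 ≤ t ≤ X` but at most
   `A (X / Q₀ ^ (1 - θ) + Q₁ ^ (1 + θ))`, and for ALL `Q` with `Q₀ ≤ Q ≤ Q₁`, the good places are at
   least the proportion `1 - η` of ALL places `v` of `K` with `N v ≤ Q`.
3. For `η, δ > 0` there is `C` such that if `X ^ δ Q₀ ≤ Q₁`, then for all integers `1 ≤ t ≤ X` but
   at most `C Q₁` the following holds: for at least the proportion `1 - η` of the scales `Q = 2 ^ j`
   between `Q₀` and `Q₁` the good places are at least the proportion `1 - η` of all places of norm at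
   most `Q`. With `Q₀ = 1`, `Q₁ = X ^ δ`: all members but `O(X ^ δ)`.

**Newton and Hodge polygons.** By the theorem of Mazur for the eigenspaces of the crystalline
cohomology the Newton polygon of `H ^ 1` of the Kummer sheaf (the intersection cohomology of the line with
coefficients in `L_j`) lies above its Hodge polygon, whose slopes are `0` (`h ^ (0, 1)` times) and `1`. The
space `h ^ (0, 1)` is a quotient of the eigenspace above, whatever the multiplicities of the roots are. So at
a good place the part of slope `0` has the right dimension and the two polygons agree. For `m = 2` this means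
that the Jacobian of the hyperelliptic curve has ordinary reduction.

**Examples.**

* `y ^ 2 = ∏ (x - a_i(t))`, `2 g + 2` or `2 g + 1` different functions `a_i(t)`, such that the distances of
  the `a_i` for the order at `t = s` are all different, except for the equalities which follow from the
  ultrametric inequality: then every cluster has exactly two children. The families of this kind in our
  other theorems are those in which the points come together in pairs in one fibre, `y ^ 2 = h(x) ^ 2`
  (`KummerSummands`, `MP_17d720_ag.ArrangementPencils`), and those for which all the discs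
  contain the origin (`TropicalDegenerations`, `n = 1`).
* `y ^ m = ∏ P_c ^ c`, `f_j = ∏ P_c ^ (j c mod m)`, where the branch points of the exponents `c` and
  `m - c` come together.
-/

set_option autoImplicit false

open Finset NumberField IsDedekindDomain

namespace Pool.Agent.Results.MP_0dad22_ag.TotallyDegenerateCurves

section

variable {K : Type} [Field K] [NumberField K]

/-- The coefficient `c(t)` of the family on the curve `t = s + S ^ N` through the point `s` of
`P ^ 1(K)`; if `s` is infinity, this is the curve `t = S ^ (-N)` and we take `S ^ (N H) c(S ^ (-N))`. -/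
noncomputable def along (H N : ℕ) (s : Option K) (c : Polynomial (𝓞 K)) :
    Polynomial (AlgebraicClosure K) :=
  match s with
  | some s₀ => (c.map ((algebraMap K (AlgebraicClosure K)).comp (algebraMap (𝓞 K) K))).comp
      (Polynomial.X ^ N + Polynomial.C (algebraMap K (AlgebraicClosure K) s₀))
  | none => (Polynomial.reflect H
      (c.map ((algebraMap K (AlgebraicClosure K)).comp (algebraMap (𝓞 K) K)))).comp
      (Polynomial.X ^ N)

/-- The family `f` on this curve, in the coordinate `S ^ M x`: the polynomial
`S ^ (M B) f(x / S ^ M)`. -/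
noncomputable def pullback (B H N M : ℕ) (s : Option K) (f : Polynomial (Polynomial (𝓞 K))) :
    Polynomial (Polynomial (AlgebraicClosure K)) :=
  ∑ i ∈ range (B + 1),
    Polynomial.C (Polynomial.X ^ (M * (B - i)) * along H N s (f.coeff i)) * Polynomial.X ^ i

/-- `b_l` is in the open disc with the centre `b_j` and the radius `|S| ^ (r_j)`. -/
def Inside {g : ℕ} (b : Fin g → Polynomial (AlgebraicClosure K)) (r : Fin g → ℕ) (j l : Fin g) :
    Prop :=
  Polynomial.X ^ (r j + 1) ∣ b l - b j

/-- `y ^ m = f(t, x)`, where `f` has the degree at most `m (g + 1)` in `x`, is totally degenerate at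
`t = s`. -/
def TotallyDegenerate (m g : ℕ) (s : Option K) (f : Polynomial (Polynomial (𝓞 K))) : Prop :=
  ∃ (H N M : ℕ) (b : Fin g → Polynomial (AlgebraicClosure K)) (r : Fin g → ℕ),
    (∀ i, (f.coeff i).natDegree ≤ H) ∧ 1 ≤ N ∧
    -- no centre is on a circle
    (∀ j l, Inside b r j l ∨ ¬ Polynomial.X ^ r j ∣ b l - b j) ∧
    -- the discs are different
    (∀ j l, j ≠ l → Inside b r j l → ¬ Inside b r l j) ∧
    -- in the coordinate `u`, `x = b_j + S ^ (r_j) u`, the equation is `S ^ d (κ u ^ (m w) + O(S))`,
    -- `w` the number of the centres in the disc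
    ∀ j, ∃ (d : ℕ) (κ : AlgebraicClosure K), κ ≠ 0 ∧
      Polynomial.C (Polynomial.X ^ (d + 1)) ∣ (pullback (m * (g + 1)) H N M s f).comp
          (Polynomial.C (b j) + Polynomial.C (Polynomial.X ^ r j) * Polynomial.X) -
        Polynomial.C (Polynomial.C κ * Polynomial.X ^ d) *
          Polynomial.X ^ (m * Nat.card {l : Fin g // Inside b r j l})

end

/-- The Hasse-Witt matrix of `y ^ m = f(x)` over a field with `q` elements: the coefficients of
`x ^ (q (i + 1))` in `x ^ (l + 1) f ^ ((q - 1) / m)`, `i, l < g`. -/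
noncomputable def hasseWitt {R : Type} [CommRing R] (m g q : ℕ) (f : Polynomial R) :
    Matrix (Fin g) (Fin g) R :=
  Matrix.of fun i l => (Polynomial.X ^ ((l : ℕ) + 1) * f ^ ((q - 1) / m)).coeff (q * ((i : ℕ) + 1))

/-- The place `v` is good for `t`: `m` and `Δ(t)` are prime to `v`, and for all `j` in `J` the
Hasse-Witt matrix of `y ^ m = f_j(t, x)` at `v` is invertible. -/
def Good {K : Type} [Field K] [NumberField K] (m : ℕ) (J : Finset ℕ) (g : ℕ → ℕ)
    (Δ : Polynomial (𝓞 K)) (f : ℕ → Polynomial (Polynomial (𝓞 K))) (t : ℕ)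
    (v : HeightOneSpectrum (𝓞 K)) : Prop :=
  (m : 𝓞 K) ∉ v.asIdeal ∧ Δ.eval (t : 𝓞 K) ∉ v.asIdeal ∧ ∀ j ∈ J,
    (hasseWitt m (g j) (Ideal.absNorm v.asIdeal)
      (((f j).map (Polynomial.evalRingHom (t : 𝓞 K))).map
        (algebraMap (𝓞 K) v.asIdeal.ResidueField))).det ≠ 0

lemma hasseWitt_eq {R : Type} [CommRing R] (m g q : ℕ) (hq : 1 ≤ q) (f : Polynomial R) :
    hasseWitt m g q f = Pool.Agent.Q267.MU.hu g ((q - 1) / m) q f := by
  ext i l
  unfold hasseWitt Pool.Agent.Q267.MU.hu
  rw [Matrix.of_apply, Matrix.of_apply]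
  have h1 : q * ((i : ℕ) + 1) = (q * (i : ℕ) + (q - 1)) + 1 := by
    rw [mul_add, mul_one]
    omega
  rw [h1, pow_succ', mul_assoc, Polynomial.coeff_X_mul]

lemma good_eq {K : Type} [Field K] [NumberField K] (m : ℕ) (J : Finset ℕ) (g : ℕ → ℕ)
    (Δ : Polynomial (𝓞 K)) (f : ℕ → Polynomial (Polynomial (𝓞 K))) (t : ℕ)
    (v : HeightOneSpectrum (𝓞 K)) :
    Pool.Agent.Q267.MU.GoodU m J g Δ f t v = Good m J g Δ f t v := by
  have hq : 1 ≤ Ideal.absNorm v.asIdeal := by
    rw [Nat.one_le_iff_ne_zero, Ne, Ideal.absNorm_eq_zero_iff]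
    exact v.ne_bot
  unfold Pool.Agent.Q267.MU.GoodU Good
  refine propext (and_congr_right fun _ => and_congr_right fun _ => forall_congr' fun j =>
    forall_congr' fun _ => ?_)
  rw [hasseWitt_eq _ _ _ hq]
  rfl

section

variable {K : Type} [Field K] [NumberField K]

lemma along_eq (H N : ℕ) (s : Option K) (f : Polynomial (Polynomial (𝓞 K))) (i : ℕ) :
    along H N s (f.coeff i) =
      ((Pool.Agent.Q267.MU.nearU H s f).coeff i).comp (Polynomial.X ^ N) := by
  cases s with
  | some s₀ =>
    unfold along Pool.Agent.Q267.MU.nearU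
    simp only
    rw [Polynomial.coeff_map, Polynomial.coeff_map, Polynomial.coe_mapRingHom,
      Polynomial.coe_compRingHom_apply, Polynomial.comp_assoc, Polynomial.add_comp,
      Polynomial.X_comp, Polynomial.C_comp]
  | none =>
    unfold along Pool.Agent.Q267.MU.nearU
    simp only
    rw [Pool.Agent.Q267.MU.coeff_rv, Polynomial.coeff_map, Polynomial.coe_mapRingHom]

lemma pullback_eq (B H N M : ℕ) (s : Option K) (f : Polynomial (Polynomial (𝓞 K))) :
    pullback B H N M s f =
      Pool.Agent.Q267.MU.pull B N M (Pool.Agent.Q267.MU.nearU H s f) := by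
  unfold pullback Pool.Agent.Q267.MU.pull
  refine sum_congr rfl fun i _ => ?_
  rw [along_eq]

end

open Classical in
theorem result (K : Type) [Field K] [NumberField K] (m : ℕ) (hm : 1 ≤ m)
    (ζ : K) (hζ : IsPrimitiveRoot ζ m) (J : Finset ℕ) (g : ℕ → ℕ)
    (f : ℕ → Polynomial (Polynomial (𝓞 K))) (hf : ∀ j ∈ J, (f j).natDegree ≤ m * (g j + 1))
    (s : ℕ → Option K) (hs : ∀ j ∈ J, TotallyDegenerate m (g j) (s j) (f j))
    (Δ : Polynomial (𝓞 K)) (hΔ : Δ ≠ 0) :
    (∀ ε : ℝ, 0 < ε → {v : HeightOneSpectrum (𝓞 K) | (Ideal.absNorm v.asIdeal).Prime ∧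
      ε * Ideal.absNorm v.asIdeal < (((range (Ideal.absNorm v.asIdeal)).filter
        fun t : ℕ => ¬ Good m J g Δ f t v).card : ℝ)}.Finite) ∧
    (∀ η : ℝ, 0 < η → ∀ θ : ℝ, 0 < θ → θ < 1 → ∃ A : ℝ, ∀ X Q₀ Q₁ : ℕ, 1 ≤ Q₀ →
      ({t : ℕ | (1 ≤ t ∧ t ≤ X) ∧ ∃ Q, Q₀ ≤ Q ∧ Q ≤ Q₁ ∧
        (Nat.card {v : HeightOneSpectrum (𝓞 K) // Ideal.absNorm v.asIdeal ≤ Q ∧
          Good m J g Δ f t v} : ℝ) <
        (1 - η) * Nat.card {v : HeightOneSpectrum (𝓞 K) //
          Ideal.absNorm v.asIdeal ≤ Q}}.ncard : ℝ) ≤
      A * (X * (Q₀ : ℝ) ^ (θ - 1) + (Q₁ : ℝ) ^ (1 + θ))) ∧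
    (∀ η δ : ℝ, 0 < η → 0 < δ → ∃ C : ℝ, ∀ X Q₀ Q₁ : ℕ, 1 ≤ Q₀ → (X : ℝ) ^ δ * Q₀ ≤ Q₁ →
      ({t : ℕ | (1 ≤ t ∧ t ≤ X) ∧
        (Nat.card {j : ℕ // (Q₀ ≤ 2 ^ j ∧ 2 ^ j ≤ Q₁) ∧
          (1 - η) * Nat.card {v : HeightOneSpectrum (𝓞 K) // Ideal.absNorm v.asIdeal ≤ 2 ^ j} ≤
          (Nat.card {v : HeightOneSpectrum (𝓞 K) // Ideal.absNorm v.asIdeal ≤ 2 ^ j ∧
            Good m J g Δ f t v} : ℝ)} : ℝ) <
        (1 - η) * Nat.card {j : ℕ // Q₀ ≤ 2 ^ j ∧ 2 ^ j ≤ Q₁}}.ncard : ℝ) ≤ C * Q₁) := by
  have hs' : ∀ j ∈ J, ∃ H N M : ℕ, (∀ i, ((f j).coeff i).natDegree ≤ H) ∧ 1 ≤ N ∧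
      Pool.Agent.Q267.MU.Deg m (g j) (Pool.Agent.Q267.MU.pull (m * (g j + 1)) N M
        (Pool.Agent.Q267.MU.nearU H (s j) (f j))) := by
    intro j hj
    obtain ⟨H, N, M, b, r, h1, h2, h3, h4, h5⟩ := hs j hj
    refine ⟨H, N, M, h1, h2, b, r, h3, h4, fun i => ?_⟩
    rw [← pullback_eq]
    exact h5 i
  have hfew := fun ε hε => Pool.Agent.Q267.MU.fewU m hm ζ hζ J g f hf s hs' Δ hΔ ε hε
  have hmod := fun v hv t => Pool.Agent.Q267.MU.goodU_mod m J g Δ f v hv t
  have h2 := Pool.Agent.Q267.AM.allscales (K := K) _ hmod hfew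
  have h3 := Pool.Agent.Q267.AM.mostscales (K := K) _ hmod hfew
  simp only [good_eq] at hfew h2 h3
  refine ⟨fun ε hε => ?_, fun η hη θ hθ0 hθ1 => ?_, fun η δ hη hδ => ?_⟩
  · refine (hfew ε hε).subset fun v hv => ⟨hv.1, fun h => ?_⟩
    exact absurd (lt_of_lt_of_le hv.2 (le_trans (le_of_eq (by rfl)) h)) (lt_irrefl _)
  · exact h2 η hη θ hθ0 hθ1
  · exact h3 η δ hη hδ

end Pool.Agent.Results.MP_0dad22_ag.TotallyDegenerateCurves
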