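import Pool.Agent.Q267.TD.Few

/-!
# Kummer sheaves on toric varieties: one-parameter families with a tropical degeneration

Let `K` be a number field which contains the `m`-th roots of unity, `t` a parameter, and let `F_j`,
`j` in a finite set `J`, be forms in `x_0, …, x_n` of the degrees `m e_j` whose coefficients are
polynomials in `t` over `𝓞 K`. Let `P_j` be a polytope

  `P_j = {x : x_i ≥ 0, ∑ x_i = e_j, ℓ(x) ≥ β_j(ℓ) for ℓ in L_j}`

(`L_j` a finite set of linear forms with integral coefficients, `β_j(ℓ)` integers) such that all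
exponents of `F_j` are in `m P_j`. Let `X_j` be the projective toric variety of dimension `n` of the
normal fan of `P_j`, and `L_j` the Kummer sheaf of rank one of the equation `y ^ m = F_j(t, x)` on the
open set `F_j ≠ 0` of the torus. The `j`-th eigenspace of `H ^ n(Y, O)`, `Y` the normalization of
`X_j` in this equation, is dual to the space with the basis `x ^ w`, `w` the integral points in the
interior of `P_j` (`w_i ≥ 1` and `ℓ(w) > β_j(ℓ)`); at a place of norm `q = 1` modulo `m` the
Frobenius maps it to itself, and its matrix, the Hasse-Witt matrix, consists of the coefficients of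
`x ^ (q w - w')` in `F_j ^ ((q - 1) / m)`.

Let `s` be a point of `P ^ 1(K)`. The orders at `s` of the coefficients of `F_j` (the multiplicity of
the root `s` if `s` is in `K`, the negative of the degree if `s` is infinity) define the regular
subdivision of the Newton polytope of `F_j`, which is dual to the tropicalization of `F_j` over the
completion of `K(t)` at `s`. The exponent `v` is a vertex of it if there is a linear form `λ` with
`ord c_u - ord c_v > λ(u - v)` for all exponents `u ≠ v` of `F_j`.

**Theorem.** Let for every `j ∈ J` be a point `s_j` of `P ^ 1(K)` such that the exponents `m w`, `w`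
the integral points in the interior of `P_j`, are vertices of the regular subdivision of `F_j` at
`s_j`. Let `Δ ≠ 0` be any polynomial in `t` over `𝓞 K`. Call `v` good for `t` if `m` and `Δ(t)` are
prime to `v` and the Hasse-Witt matrices of all `F_j`, `j ∈ J`, are invertible at `v`.

1. For every `ε > 0` and all but finitely many places `v` of prime norm, at most `ε N v` of the
   `N v` residue classes `t` are not good.
2. For `η > 0`, `0 < θ < 1` there is `A` such that for all integers `1 ≤ t ≤ X` but at most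
   `A (X / Q₀ ^ (1 - θ) + Q₁ ^ (1 + θ))`, and for ALL `Q` with `Q₀ ≤ Q ≤ Q₁`, the good places are at
   least the proportion `1 - η` of ALL places `v` of `K` with `N v ≤ Q`.
3. For `η, δ > 0` there is `C` such that if `X ^ δ Q₀ ≤ Q₁`, then for all integers `1 ≤ t ≤ X` but
   at most `C Q₁` the following holds: for at least the proportion `1 - η` of the scales `Q = 2 ^ j`
   between `Q₀` and `Q₁` the good places are at least the proportion `1 - η` of all places of norm at
   most `Q`. With `Q₀ = 1`, `Q₁ = X ^ δ`: all members but `O(X ^ δ)`.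

**Newton and Hodge polygons.** By the theorem of Mazur for the eigenspaces of the crystalline
cohomology the Newton polygon of `IH ^ n(X_j, L_j)` lies above its Hodge polygon. The part `h ^ (0, n)`
is a quotient of the `j`-th eigenspace of `H ^ n(Y, O)`, whatever the singularities of `F_j = 0` are,
so at a good place the part of slope `0` has the right dimension; the same holds for the slope `n` if
the inverse character belongs to `J`. Hence the two polygons agree at a good place

* for `n = 1` (superelliptic curves `y ^ m = f_t(x)`) and every `J`;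
* for `n = 2` if `J` is closed under inverses of characters, such as `m = 2` (double covers of
  toric surfaces);
* for `m = 1` (here `H ^ n(O(-D))` is `H ^ (n - 1)(O)` of the hypersurface `F = 0` of `X`) for curves
  and surfaces in toric varieties of dimension `2` and `3`.

In general the first and the last segment of the polygons agree.

**Examples.**

* Every pencil `F = f(x) + t x ^ (m w₀)` if `w₀` is the only integral point in the interior of `P`
  (`s` infinity): for `m = 1` all pencils of Calabi-Yau hypersurfaces of a toric variety (for example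
  of degree `n + 1` in `P ^ n`) which contain the boundary, `f + t x_0 ⋯ x_n` with ANY `f`.
* Families of every geometric genus: `∑ a_u(t) x ^ u` where `ord a_u` at `s` is the value of a strictly
  convex function at the points `u = m w`, and at least as big at the other points, such as
  `∑ a_u t ^ (|u| ^ 2) x ^ u` with `a_u ≠ 0` for `u = m w`, and the other coefficients
  arbitrary multiples of `t ^ (|u| ^ 2)`: curves with totally degenerate reduction (Mumford curves)
  of every genus, patchworkings of surfaces.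

The arrangement case, where `F_j` has the value `(l_1 ⋯ l_e) ^ m` with linear forms in general
position, is `MP_0dad22_ag.KummerSummands`; there the periods live at the vertices of the
arrangement, here at the vertices of the subdivision, and neither of the two theorems contains the
other.

## Proof

For a vertex `m w_j` the series `F ^ (-1 / m)` is expanded in the domain `|x_i| = |S| ^ (ω_i)` of the
torus in which the monomial `x ^ (m w_j)` dominates, on the curve `t = γ S ^ N` through the point `s`.
The coefficients of the expansions are power series in `S` which satisfy linear differential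
equations (Lipshitz), and their matrix has the determinant `S ^ a D`, `D(0) = 1`, because the
inequalities for the vertices `m w_l` in the chart `j` are strict. The Frobenius structure
(`Pool/Agent/Q267/TD/Det.lean`) expresses the Hasse-Witt determinant by `D(S) / D(S ^ p)`, and the
soft Stepanov theorem (`Pool/Agent/Q267/ST`) bounds the number of its zeros. The indeterminate `γ`
makes the curves cover all `t`.
-/

set_option autoImplicit false

open Finset MvPolynomial NumberField IsDedekindDomain

namespace Pool.Agent.Results.MP_0dad22_ag.TropicalDegenerations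

/-- The order of a polynomial at the point `s` of `P^1(K)`: the multiplicity of the root `s₀`, or, at
infinity (`s = none`), the negative of the degree. -/
noncomputable def ordAt {K : Type} [Field K] (s : Option K) (c : Polynomial K) : ℤ :=
  match s with
  | some s₀ => (c.rootMultiplicity s₀ : ℤ)
  | none => -(c.natDegree : ℤ)

/-- The exponent `v` is a vertex of the regular subdivision defined by the orders at `s` of the
coefficients of `F`. -/
def IsVertex {K : Type} [Field K] [NumberField K] {n : ℕ} (s : Option K)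
    (F : MvPolynomial (Fin (n + 1)) (Polynomial (𝓞 K))) (v : Fin (n + 1) →₀ ℕ) : Prop :=
  v ∈ F.support ∧ ∃ lam : Fin (n + 1) → ℚ, ∀ u ∈ F.support, u ≠ v →
    ∑ i, lam i * ((u i : ℚ) - (v i : ℚ)) <
      (ordAt s ((coeff u F).map (algebraMap (𝓞 K) K)) : ℚ) -
        ordAt s ((coeff v F).map (algebraMap (𝓞 K) K))

/-- The integral points in the interior of the polytope `x_i ≥ 0`, `∑ x_i = e`, `ℓ(x) ≥ β(ℓ)` for
`ℓ ∈ L`. -/
abbrev Interior (n e : ℕ) (L : Finset (Fin (n + 1) → ℤ)) (β : (Fin (n + 1) → ℤ) → ℤ) :=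
  {w : (i : Fin (n + 1)) → Fin (e + 1) // (∀ i, 0 < (w i : ℕ)) ∧ ∑ i, (w i : ℕ) = e ∧
    ∀ ℓ ∈ L, β ℓ < ∑ i, ℓ i * ((w i : ℕ) : ℤ)}

/-- The exponent as a finitely supported function. -/
noncomputable def expo {n e : ℕ} {L : Finset (Fin (n + 1) → ℤ)} {β : (Fin (n + 1) → ℤ) → ℤ}
    (w : Interior n e L β) : Fin (n + 1) →₀ ℕ :=
  Finsupp.equivFunOnFinite.symm fun i => (w.1 i : ℕ)

/-- The Hasse-Witt matrix of the form `f` of degree `m e` over a field with `q` elements: the entry
with indices `w`, `w'` is the coefficient of `x ^ (q w - w')` in `f ^ ((q - 1) / m)`, written as the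
coefficient of `x ^ (q w)` in `x ^ w' f ^ ((q - 1) / m)`. -/
noncomputable def hasseWitt {R : Type} [CommRing R] {n : ℕ} (m e q : ℕ)
    (L : Finset (Fin (n + 1) → ℤ)) (β : (Fin (n + 1) → ℤ) → ℤ)
    (f : MvPolynomial (Fin (n + 1)) R) : Matrix (Interior n e L β) (Interior n e L β) R :=
  Matrix.of fun w w' => coeff (q • expo w) (monomial (expo w') 1 * f ^ ((q - 1) / m))

/-- The member of a family at the integer `t`. -/
noncomputable def member {K : Type} [Field K] [NumberField K] {n : ℕ}
    (f : MvPolynomial (Fin (n + 1)) (Polynomial (𝓞 K))) (t : ℕ) : MvPolynomial (Fin (n + 1)) (𝓞 K) :=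
  map (Polynomial.evalRingHom (t : 𝓞 K)) f

/-- The place `v` is good for `t`: `m` and `Δ(t)` are prime to `v`, and for all `j` in `J` the
Hasse-Witt matrix of `y ^ m = F_j(t, x)` at `v` is invertible. -/
def Good {K : Type} [Field K] [NumberField K] {n : ℕ} (m : ℕ) (J : Finset ℕ) (e : ℕ → ℕ)
    (L : ℕ → Finset (Fin (n + 1) → ℤ)) (β : ℕ → (Fin (n + 1) → ℤ) → ℤ)
    (Δ : Polynomial (𝓞 K)) (F : ℕ → MvPolynomial (Fin (n + 1)) (Polynomial (𝓞 K))) (t : ℕ)
    (v : HeightOneSpectrum (𝓞 K)) : Prop :=
  (m : 𝓞 K) ∉ v.asIdeal ∧ Δ.eval (t : 𝓞 K) ∉ v.asIdeal ∧ ∀ j ∈ J,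
    (hasseWitt m (e j) (Ideal.absNorm v.asIdeal) (L j) (β j)
      (map (algebraMap (𝓞 K) v.asIdeal.ResidueField) (member (F j) t))).det ≠ 0

lemma good_eq {K : Type} [Field K] [NumberField K] {n : ℕ} (m : ℕ) (J : Finset ℕ) (e : ℕ → ℕ)
    (L : ℕ → Finset (Fin (n + 1) → ℤ)) (β : ℕ → (Fin (n + 1) → ℤ) → ℤ)
    (Δ : Polynomial (𝓞 K)) (F : ℕ → MvPolynomial (Fin (n + 1)) (Polynomial (𝓞 K))) (t : ℕ)
    (v : HeightOneSpectrum (𝓞 K)) :
    Pool.Agent.Q267.TD.GoodL m J e (fun j => (L j, β j)) Δ F t v = Good m J e L β Δ F t v := rfl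

open Classical in
theorem result (K : Type) [Field K] [NumberField K] (m n : ℕ) (hm : 1 ≤ m)
    (ζ : K) (hζ : IsPrimitiveRoot ζ m)
    (F : ℕ → MvPolynomial (Fin (n + 1)) (Polynomial (𝓞 K))) (J : Finset ℕ) (e : ℕ → ℕ)
    (L : ℕ → Finset (Fin (n + 1) → ℤ)) (β : ℕ → (Fin (n + 1) → ℤ) → ℤ)
    (hF : ∀ j ∈ J, ∀ u ∈ (F j).support, ∑ i, u i = m * e j ∧
      ∀ ℓ ∈ L j, m * β j ℓ ≤ ∑ i, ℓ i * (u i : ℤ))
    (s : ℕ → Option K)
    (hs : ∀ j ∈ J, ∀ w : Interior n (e j) (L j) (β j), IsVertex (s j) (F j) (m • expo w))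
    (Δ : Polynomial (𝓞 K)) (hΔ : Δ ≠ 0) :
    (∀ ε : ℝ, 0 < ε → {v : HeightOneSpectrum (𝓞 K) | (Ideal.absNorm v.asIdeal).Prime ∧
      ε * Ideal.absNorm v.asIdeal < (((range (Ideal.absNorm v.asIdeal)).filter
        fun t : ℕ => ¬ Good m J e L β Δ F t v).card : ℝ)}.Finite) ∧
    (∀ η : ℝ, 0 < η → ∀ θ : ℝ, 0 < θ → θ < 1 → ∃ A : ℝ, ∀ X Q₀ Q₁ : ℕ, 1 ≤ Q₀ →
      ({t : ℕ | (1 ≤ t ∧ t ≤ X) ∧ ∃ Q, Q₀ ≤ Q ∧ Q ≤ Q₁ ∧
        (Nat.card {v : HeightOneSpectrum (𝓞 K) // Ideal.absNorm v.asIdeal ≤ Q ∧
          Good m J e L β Δ F t v} : ℝ) <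
        (1 - η) * Nat.card {v : HeightOneSpectrum (𝓞 K) //
          Ideal.absNorm v.asIdeal ≤ Q}}.ncard : ℝ) ≤
      A * (X * (Q₀ : ℝ) ^ (θ - 1) + (Q₁ : ℝ) ^ (1 + θ))) ∧
    (∀ η δ : ℝ, 0 < η → 0 < δ → ∃ C : ℝ, ∀ X Q₀ Q₁ : ℕ, 1 ≤ Q₀ → (X : ℝ) ^ δ * Q₀ ≤ Q₁ →
      ({t : ℕ | (1 ≤ t ∧ t ≤ X) ∧
        (Nat.card {j : ℕ // (Q₀ ≤ 2 ^ j ∧ 2 ^ j ≤ Q₁) ∧
          (1 - η) * Nat.card {v : HeightOneSpectrum (𝓞 K) // Ideal.absNorm v.asIdeal ≤ 2 ^ j} ≤
          (Nat.card {v : HeightOneSpectrum (𝓞 K) // Ideal.absNorm v.asIdeal ≤ 2 ^ j ∧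
            Good m J e L β Δ F t v} : ℝ)} : ℝ) <
        (1 - η) * Nat.card {j : ℕ // Q₀ ≤ 2 ^ j ∧ 2 ^ j ≤ Q₁}}.ncard : ℝ) ≤ C * Q₁) := by
  have hfew := fun ε hε => Pool.Agent.Q267.TD.fewL (n := n) m hm ζ hζ J e
    (fun j => (L j, β j)) F hF s hs Δ hΔ ε hε
  have hmod := fun v hv t => Pool.Agent.Q267.TD.goodL_mod (n := n) m J e
    (fun j => (L j, β j)) Δ F v hv t
  have h2 := Pool.Agent.Q267.AM.allscales (K := K) _ hmod hfew
  have h3 := Pool.Agent.Q267.AM.mostscales (K := K) _ hmod hfew
  simp only [good_eq] at hfew h2 h3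
  refine ⟨fun ε hε => ?_, fun η hη θ hθ0 hθ1 => ?_, fun η δ hη hδ => ?_⟩
  · refine (hfew ε hε).subset fun v hv => ⟨hv.1, fun h => ?_⟩
    exact absurd (lt_of_lt_of_le hv.2 (le_trans (le_of_eq (by rfl)) h)) (lt_irrefl _)
  · exact h2 η hη θ hθ0 hθ1
  · exact h3 η δ hη hδ

end Pool.Agent.Results.MP_0dad22_ag.TropicalDegenerations
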